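import Pool.Agent.J4H48.LA.Stm2
import Pool.Agent.TH577.UA.Tor
import Pool.Agent.J4H3.LA.SmoCore

set_option autoImplicit false

/-! (SMO2): smoothness at the complex points; adapted from `t_SMO` of `Pool.Agent.J4H3.LA.Smo` (helper3). -/

open Finset

namespace Pool.Agent.J4H55.LA

open Pool.Agent.J4H48.LA
open Pool.Agent.J4H3.LA (core)
open Pool.Agent.TH577.UA
open Pool.Agent.TH826.GA (lf lc eval_lf eval_pderiv_prod pderiv_lf)

theorem t_SMO2 : S_CEN2 → S_SMO2 := by
  intro hCEN m cls pos lam hG hlam x hx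
  set σ : ℚ →+* ℂ := algebraMap ℚ ℂ with hσ
  set q : Fin 3 → ℂ := ![x 0, x 1, -x 0 - x 1] with hq
  have hlc : ∀ e, lc σ (cf cls) (ps pos) x e = q (cls e) - (pos e : ℂ) := by
    intro e
    unfold lc cf ps dir
    rw [Fin.sum_univ_two, hq]
    generalize cls e = k
    fin_cases k
    · simp
    · simp
    · simp
      ring
  have hx' := hx
  rw [eval_aeqn, sub_eq_zero, MvPolynomial.eval₂_one, one_mul] at hx
  simp only [zero_add, pow_one] at hx
  have hprod : σ (lam : ℚ) ≠ 0 ∧ ∏ e, lc σ (cf cls) (ps pos) x e ≠ 0 := by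
    rw [← mul_ne_zero_iff, hx]
    exact one_ne_zero
  have hu : ∀ e, lc σ (cf cls) (ps pos) x e ≠ 0 := fun e =>
    (Finset.prod_ne_zero_iff.1 hprod.2) e (Finset.mem_univ e)
  by_contra hcon
  push Not at hcon
  have hgrad : ∀ j, ∑ e, σ (cf cls e j) * (lc σ (cf cls) (ps pos) x e)⁻¹ = 0 := by
    intro j
    have h1 := hcon j
    unfold leqn aeqn at h1
    simp only [zero_add, pow_one] at h1
    rw [map_sub, MvPolynomial.pderiv_one, sub_zero, one_mul, MvPolynomial.pderiv_C_mul,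
      MvPolynomial.eval₂_mul, MvPolynomial.eval₂_C,
      eval_pderiv_prod σ x j _ _ (fun e _ => by
        rw [eval_lf]
        exact hu e)] at h1
    simp only [pderiv_lf, MvPolynomial.eval₂_C, eval_lf, MvPolynomial.eval₂_prod] at h1
    have h2 : (∑ e, σ (cf cls e j) * (lc σ (cf cls) (ps pos) x e)⁻¹) *
        (σ (lam : ℚ) * ∏ e, lc σ (cf cls) (ps pos) x e) = 0 := by
      linear_combination h1
    rwa [hx, mul_one] at h2
  simp only [hlc] at hgrad hu hx
  set A : Fin 3 → ℂ := fun k => ∑ e ∈ univ.filter (fun e => cls e = k), (q k - pos e)⁻¹ with hA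
  have hfib : ∀ j : Fin 2, ∑ e, σ (cf cls e j) * (q (cls e) - (pos e : ℂ))⁻¹ =
      ∑ k, σ (dir k j) * A k := by
    intro j
    rw [← Finset.sum_fiberwise (s := univ) (g := cls)
      (f := fun e => σ (cf cls e j) * (q (cls e) - (pos e : ℂ))⁻¹)]
    refine Finset.sum_congr rfl fun k _ => ?_
    rw [hA, Finset.mul_sum]
    refine Finset.sum_congr rfl fun e he => ?_
    have h2 : cls e = k := (Finset.mem_filter.1 he).2
    rw [h2]
    unfold cf
    rw [h2]
  have hA0 : A 0 = A 2 := by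
    have h1 := hgrad 0
    rw [hfib, Fin.sum_univ_three] at h1
    simp [dir] at h1
    linear_combination h1
  have hA1 : A 1 = A 2 := by
    have h1 := hgrad 1
    rw [hfib, Fin.sum_univ_three] at h1
    simp [dir] at h1
    linear_combination h1
  have hAk : ∀ k, A k = A 2 := by
    intro k
    fin_cases k
    · exact hA0
    · exact hA1
    · rfl
  have hsum : q 0 + q 1 + q 2 = 0 := by
    rw [hq]
    simp
  have hreal := core cls pos q (A 2) hsum hu hG.two hAk
  set r : Fin 3 → ℝ := fun k => (q k).re with hr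
  have hqr : ∀ k, q k = (r k : ℂ) := fun k => by
    apply Complex.ext
    · simp [hr]
    · simp [hreal k]
  have hne : ∀ e, r (cls e) - pos e ≠ 0 := fun e h => by
    apply hu e
    rw [hqr]
    have : ((r (cls e) - pos e : ℝ) : ℂ) = 0 := by rw [h]; simp
    rw [← this]
    push_cast
    ring
  have hAr : ∀ k, A k = ((∑ e ∈ univ.filter (fun e => cls e = k), 1 / (r k - pos e) : ℝ) : ℂ) := by
    intro k
    rw [hA]
    simp only [hqr]
    push_cast
    simp only [one_div]
  have hC := hCEN m cls pos r (∑ e ∈ univ.filter (fun e => cls e = 2), 1 / (r 2 - pos e)) hG.inj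
    (by
      have := congrArg Complex.re hsum
      simpa [hr] using this) hne (fun k => by
      have h1 := hAk k
      rw [hAr, hAr 2] at h1
      exact_mod_cast h1)
  have h5 := congrArg norm hx
  rw [norm_mul, norm_one, norm_prod] at h5
  have h6 : ‖σ (lam : ℚ)‖ = |(lam : ℝ)| := by
    rw [hσ, map_intCast, Complex.norm_intCast]
  have h7 : ∏ e, ‖q (cls e) - (pos e : ℂ)‖ = ∏ e, |r (cls e) - pos e| := by
    refine Finset.prod_congr rfl fun e _ => ?_
    rw [hqr, ← Real.norm_eq_abs, ← Complex.norm_real]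
    push_cast
    rfl
  rw [h6, h7] at h5
  have h8 : (10 : ℝ) ^ 5 ≤ |(lam : ℝ)| * 2 ^ (m + 1) := by exact_mod_cast hlam
  have h9 : |(lam : ℝ)| * ((5 / 162 : ℝ) ^ 3 * 2 ^ (m + 1)) ≤
      |(lam : ℝ)| * ∏ e, |r (cls e) - pos e| := mul_le_mul_of_nonneg_left hC (abs_nonneg _)
  rw [h5] at h9
  have h10 : (5 / 162 : ℝ) ^ 3 * 10 ^ 5 ≤ (5 / 162 : ℝ) ^ 3 * (|(lam : ℝ)| * 2 ^ (m + 1)) :=
    mul_le_mul_of_nonneg_left h8 (by positivity)
  have h11 : (1 : ℝ) < (5 / 162 : ℝ) ^ 3 * 10 ^ 5 := by norm_num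
  nlinarith

end Pool.Agent.J4H55.LA
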