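import Mathlib

/-!
# Project LA: piece (CEN), the concave comparison
-/

set_option autoImplicit false

namespace Pool.Agent.J4H55.LA

theorem prod_ge {g : ℤ → ℝ} (T P : Finset ℤ) (hT : ∀ s ∈ T, 0 ≤ g s ∧ g s ≤ 1)
    (hP : ∀ s ∈ P, s ∉ T → 1 ≤ g s) : ∏ s ∈ T, g s ≤ ∏ s ∈ P, g s := by
  classical
  have e2 : (∏ s ∈ P ∩ T, g s) * ∏ s ∈ P \ T, g s = ∏ s ∈ P, g s :=
    Finset.prod_inter_mul_prod_sdiff P T g
  have e3 : (∏ s ∈ T ∩ P, g s) * ∏ s ∈ T \ P, g s = ∏ s ∈ T, g s :=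
    Finset.prod_inter_mul_prod_sdiff T P g
  have h3 : (1 : ℝ) ≤ ∏ s ∈ P \ T, g s := by
    calc (1 : ℝ) = ∏ _s ∈ P \ T, (1 : ℝ) := by rw [Finset.prod_const_one]
      _ ≤ ∏ s ∈ P \ T, g s := Finset.prod_le_prod (fun _ _ => zero_le_one)
          fun s hs => hP s (Finset.mem_sdiff.1 hs).1 (Finset.mem_sdiff.1 hs).2
  have h4 : ∏ s ∈ T \ P, g s ≤ 1 := by
    calc ∏ s ∈ T \ P, g s ≤ ∏ _s ∈ T \ P, (1 : ℝ) :=
          Finset.prod_le_prod (fun s hs => (hT s (Finset.mem_sdiff.1 hs).1).1)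
            (fun s hs => (hT s (Finset.mem_sdiff.1 hs).1).2)
      _ = 1 := by rw [Finset.prod_const_one]
  have h5 : 0 ≤ ∏ s ∈ T ∩ P, g s :=
    Finset.prod_nonneg fun s hs => (hT s (Finset.mem_inter.1 hs).1).1
  rw [← e2, ← e3, Finset.inter_comm P T]
  exact mul_le_mul_of_nonneg_left (h4.trans h3) h5

/-- one class -/
theorem cls_prod (a : ℤ) (r : ℝ) (hr : r = 1 / 3 ∨ r = 2 / 3) (P : Finset ℤ) :
    (2 / 9 : ℝ) ≤ ∏ p ∈ P, |(a : ℝ) + r - p| := by
  have hr0 : 0 < r ∧ r < 1 ∧ r * (1 - r) = 2 / 9 := by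
    rcases hr with h | h <;> rw [h] <;> norm_num
  have h1 : ∏ s ∈ ({a, a + 1} : Finset ℤ), |(a : ℝ) + r - s| = 2 / 9 := by
    rw [Finset.prod_pair (by omega)]
    have h2 : |(a : ℝ) + r - a| = r := by
      rw [show (a : ℝ) + r - a = r by ring, abs_of_pos hr0.1]
    have h3 : |(a : ℝ) + r - ((a + 1 : ℤ) : ℝ)| = 1 - r := by
      rw [show (a : ℝ) + r - ((a + 1 : ℤ) : ℝ) = -(1 - r) by push_cast; ring, abs_neg,
        abs_of_pos (by linarith [hr0.2.1])]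
    rw [h2, h3, hr0.2.2]
  rw [← h1]
  refine prod_ge (g := fun s => |(a : ℝ) + r - s|) _ _ ?_ ?_
  · intro s hs
    refine ⟨abs_nonneg _, ?_⟩
    have h2 : s = a ∨ s = a + 1 := by
      simpa only [Finset.mem_insert, Finset.mem_singleton] using hs
    show |(a : ℝ) + r - s| ≤ 1
    rw [abs_le]
    rcases h2 with rfl | rfl
    · constructor <;> linarith [hr0.1, hr0.2.1]
    · push_cast
      constructor <;> linarith [hr0.1, hr0.2.1]
  · intro s _ hs
    have h2 : ¬ (s = a ∨ s = a + 1) := by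
      simpa only [Finset.mem_insert, Finset.mem_singleton] using hs
    show 1 ≤ |(a : ℝ) + r - s|
    rcases lt_or_ge s a with h3 | h3
    · have h4 : s + 1 ≤ a := h3
      have h5 : (s : ℝ) + 1 ≤ a := by exact_mod_cast h4
      rw [abs_of_pos (by linarith [hr0.1])]
      linarith [hr0.1]
    · have h4 : a + 2 ≤ s := by omega
      have h5 : (a : ℝ) + 2 ≤ s := by exact_mod_cast h4
      rw [abs_of_neg (by linarith [hr0.2.1])]
      linarith [hr0.2.1]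

theorem side {q r : ℝ} (h0 : 0 < r) (h1 : r < 1) (p : ℤ) (hp : q ≠ p) :
    0 < ((⌊q⌋ : ℝ) + r - p) / (q - p) := by
  rcases lt_or_gt_of_ne hp with h | h
  · have h2 : ⌊q⌋ < p := Int.floor_lt.2 h
    have h3 : (⌊q⌋ : ℝ) + 1 ≤ p := by exact_mod_cast h2
    exact div_pos_of_neg_of_neg (by linarith) (by linarith)
  · have h2 : p ≤ ⌊q⌋ := Int.le_floor.2 h.le
    have h3 : (p : ℝ) ≤ ⌊q⌋ := by exact_mod_cast h2
    exact div_pos (by linarith) (by linarith)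

theorem exists_c (q : Fin 3 → ℝ) (hq : q 0 + q 1 + q 2 = 0) : ∃ (a : Fin 3 → ℤ) (r : ℝ),
    (r = 1 / 3 ∨ r = 2 / 3) ∧ ((a 0 : ℝ) + r) + (a 1 + r) + (a 2 + r) = 0 ∧
      ∀ k (p : ℤ), q k ≠ p → 0 < ((a k : ℝ) + r - p) / (q k - p) := by
  have f0 := Int.floor_le (q 0)
  have f1 := Int.floor_le (q 1)
  have f2 := Int.floor_le (q 2)
  have g0 := Int.lt_floor_add_one (q 0)
  have g1 := Int.lt_floor_add_one (q 1)
  have g2 := Int.lt_floor_add_one (q 2)
  have h1 : ⌊q 0⌋ + ⌊q 1⌋ + ⌊q 2⌋ ≤ 0 := by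
    have : ((⌊q 0⌋ + ⌊q 1⌋ + ⌊q 2⌋ : ℤ) : ℝ) ≤ 0 := by push_cast; linarith
    exact_mod_cast this
  have h2 : -3 < ⌊q 0⌋ + ⌊q 1⌋ + ⌊q 2⌋ := by
    have : ((-3 : ℤ) : ℝ) < ((⌊q 0⌋ + ⌊q 1⌋ + ⌊q 2⌋ : ℤ) : ℝ) := by push_cast; linarith
    exact_mod_cast this
  rcases (by omega : ⌊q 0⌋ + ⌊q 1⌋ + ⌊q 2⌋ = 0 ∨ ⌊q 0⌋ + ⌊q 1⌋ + ⌊q 2⌋ = -1 ∨
    ⌊q 0⌋ + ⌊q 1⌋ + ⌊q 2⌋ = -2) with h | h | h
  · -- all integral
    have h3 : (⌊q 0⌋ : ℝ) + ⌊q 1⌋ + ⌊q 2⌋ = 0 := by exact_mod_cast h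
    have h4 : q 2 = ⌊q 2⌋ := by linarith
    refine ⟨![⌊q 0⌋, ⌊q 1⌋, ⌊q 2⌋ - 1], 1 / 3, Or.inl rfl, ?_, ?_⟩
    · show ((⌊q 0⌋ : ℤ) : ℝ) + 1 / 3 + (((⌊q 1⌋ : ℤ) : ℝ) + 1 / 3) + (((⌊q 2⌋ - 1 : ℤ) : ℝ) + 1 / 3) = 0
      push_cast
      linarith
    · intro k p hp
      fin_cases k
      · exact side (by norm_num) (by norm_num) p hp
      · exact side (by norm_num) (by norm_num) p hp
      · show 0 < (((⌊q 2⌋ - 1 : ℤ) : ℝ) + 1 / 3 - p) / (q 2 - p)
        have hp' : q 2 ≠ p := hp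
        rcases lt_or_gt_of_ne hp' with h5 | h5
        · have h6 : ⌊q 2⌋ < p := Int.floor_lt.2 h5
          have h7 : (⌊q 2⌋ : ℝ) + 1 ≤ p := by exact_mod_cast h6
          refine div_pos_of_neg_of_neg ?_ (by linarith)
          push_cast
          linarith
        · have h6 : p < ⌊q 2⌋ := by
            have : (p : ℝ) < ⌊q 2⌋ := by rw [← h4]; exact h5
            exact_mod_cast this
          have h7 : (p : ℝ) + 1 ≤ ⌊q 2⌋ := by exact_mod_cast h6
          refine div_pos ?_ (by linarith)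
          push_cast
          linarith
  · have h3 : (⌊q 0⌋ : ℝ) + ⌊q 1⌋ + ⌊q 2⌋ = -1 := by exact_mod_cast h
    exact ⟨fun k => ⌊q k⌋, 1 / 3, Or.inl rfl, by linarith,
      fun k p hp => side (by norm_num) (by norm_num) p hp⟩
  · have h3 : (⌊q 0⌋ : ℝ) + ⌊q 1⌋ + ⌊q 2⌋ = -2 := by exact_mod_cast h
    exact ⟨fun k => ⌊q k⌋, 2 / 3, Or.inr rfl, by linarith,
      fun k p hp => side (by norm_num) (by norm_num) p hp⟩

theorem cen : ∀ (m : ℕ) (cls : Fin (m + 1) → Fin 3) (pos : Fin (m + 1) → ℤ)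
    (q : Fin 3 → ℝ) (S : ℝ), (∀ e f, cls e = cls f → pos e = pos f → e = f) →
    q 0 + q 1 + q 2 = 0 → (∀ e, q (cls e) - pos e ≠ 0) →
    (∀ k, ∑ e ∈ Finset.univ.filter (fun e => cls e = k), 1 / (q k - pos e) = S) →
    (8 : ℝ) / 729 ≤ ∏ e, |q (cls e) - pos e| := by
  intro m cls pos q S hinj hq hne hS
  obtain ⟨a, r, hr, hsum, hpos⟩ := exists_c q hq
  have hw : ∀ e, 0 < ((a (cls e) : ℝ) + r - pos e) / (q (cls e) - pos e) := fun e =>
    hpos (cls e) (pos e) (sub_ne_zero.1 (hne e))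
  -- the sum of the logarithms
  have hs : ∑ e, (((a (cls e) : ℝ) + r - pos e) / (q (cls e) - pos e) - 1) = 0 := by
    have h1 : ∀ e, ((a (cls e) : ℝ) + r - pos e) / (q (cls e) - pos e) - 1 =
        ((a (cls e) : ℝ) + r - q (cls e)) * (1 / (q (cls e) - pos e)) := by
      intro e
      have h2 := hne e
      field_simp
      ring
    simp_rw [h1]
    rw [← Finset.sum_fiberwise Finset.univ cls]
    have h2 : ∀ k : Fin 3, ∑ e ∈ Finset.univ.filter (fun e => cls e = k),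
        ((a (cls e) : ℝ) + r - q (cls e)) * (1 / (q (cls e) - pos e)) = ((a k : ℝ) + r - q k) * S := by
      intro k
      rw [← hS k, Finset.mul_sum]
      refine Finset.sum_congr rfl fun e he => ?_
      rw [(Finset.mem_filter.1 he).2]
    simp_rw [h2]
    rw [Fin.sum_univ_three]
    linear_combination S * hsum - S * hq
  have h1 : ∏ e, ((a (cls e) : ℝ) + r - pos e) / (q (cls e) - pos e) ≤ 1 := by
    calc ∏ e, ((a (cls e) : ℝ) + r - pos e) / (q (cls e) - pos e)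
        ≤ ∏ e, Real.exp (((a (cls e) : ℝ) + r - pos e) / (q (cls e) - pos e) - 1) := by
          refine Finset.prod_le_prod (fun e _ => (hw e).le) fun e _ => ?_
          have h2 := Real.add_one_le_exp (((a (cls e) : ℝ) + r - pos e) / (q (cls e) - pos e) - 1)
          linarith
      _ = 1 := by rw [← Real.exp_sum, hs, Real.exp_zero]
  have h2 : ∏ e, |(a (cls e) : ℝ) + r - pos e| ≤ ∏ e, |q (cls e) - pos e| := by
    have h3 : ∏ e, ((a (cls e) : ℝ) + r - pos e) / (q (cls e) - pos e) =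
        (∏ e, |(a (cls e) : ℝ) + r - pos e|) / ∏ e, |q (cls e) - pos e| := by
      rw [← Finset.prod_div_distrib]
      refine Finset.prod_congr rfl fun e _ => ?_
      rw [← abs_div, abs_of_pos (hw e)]
    have h4 : 0 < ∏ e, |q (cls e) - pos e| := Finset.prod_pos fun e _ => abs_pos.2 (hne e)
    rw [h3, div_le_one h4] at h1
    exact h1
  refine le_trans ?_ h2
  rw [← Finset.prod_fiberwise Finset.univ cls]
  calc (8 : ℝ) / 729 = ∏ _k : Fin 3, (2 / 9 : ℝ) := by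
        rw [Finset.prod_const, Finset.card_univ, Fintype.card_fin]
        norm_num
    _ ≤ _ := by
        refine Finset.prod_le_prod (fun _ _ => by norm_num) fun k _ => ?_
        have h3 : ∏ e ∈ Finset.univ.filter (fun e => cls e = k), |(a (cls e) : ℝ) + r - pos e| =
            ∏ p ∈ (Finset.univ.filter (fun e => cls e = k)).image pos, |(a k : ℝ) + r - p| := by
          rw [Finset.prod_image]
          · refine Finset.prod_congr rfl fun e he => ?_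
            rw [(Finset.mem_filter.1 he).2]
          · intro e he f hf h
            have he' := (Finset.mem_filter.1 (Finset.mem_coe.1 he)).2
            have hf' := (Finset.mem_filter.1 (Finset.mem_coe.1 hf)).2
            exact hinj e f (he'.trans hf'.symm) h
        rw [h3]
        exact cls_prod (a k) r hr _

end Pool.Agent.J4H55.LA
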