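import Pool.Agent.J4H48.LA.Stm2
import Pool.Agent.J4H55.LA.Cen

/-!
# Project LA, version 2: piece (CEN2), the concave comparison with the factor `2 ^ n`
-/

set_option autoImplicit false

namespace Pool.Agent.J4H55.LA

/-- one class -/
theorem cls_prod2 (a : ℤ) (r : ℝ) (hr : r = 1 / 3 ∨ r = 2 / 3) (P : Finset ℤ) :
    (5 / 162 : ℝ) ≤ ∏ p ∈ P, |(a : ℝ) + r - p| / 2 := by
  have h1 : ∏ s ∈ ({a - 1, a, a + 1, a + 2} : Finset ℤ), |(a : ℝ) + r - s| / 2 = 5 / 162 := by
    rw [Finset.prod_insert (by simp only [Finset.mem_insert, Finset.mem_singleton]; omega),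
      Finset.prod_insert (by simp only [Finset.mem_insert, Finset.mem_singleton]; omega),
      Finset.prod_pair (by omega)]
    have e0 : (a : ℝ) + r - ((a - 1 : ℤ) : ℝ) = r + 1 := by push_cast; ring
    have e1 : (a : ℝ) + r - (a : ℝ) = r := by ring
    have e2 : (a : ℝ) + r - ((a + 1 : ℤ) : ℝ) = -(1 - r) := by push_cast; ring
    have e3 : (a : ℝ) + r - ((a + 2 : ℤ) : ℝ) = -(2 - r) := by push_cast; ring
    rw [e0, e1, e2, e3, abs_neg, abs_neg]
    rcases hr with h | h <;> subst h <;> norm_num [abs_of_pos]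
  rw [← h1]
  refine prod_ge (g := fun s => |(a : ℝ) + r - s| / 2) _ _ ?_ ?_
  · intro s hs
    refine ⟨by positivity, ?_⟩
    have h2 : s = a - 1 ∨ s = a ∨ s = a + 1 ∨ s = a + 2 := by
      simpa only [Finset.mem_insert, Finset.mem_singleton] using hs
    show |(a : ℝ) + r - s| / 2 ≤ 1
    have h3 : |(a : ℝ) + r - s| ≤ 2 := by
      rw [abs_le]
      rcases h2 with rfl | rfl | rfl | rfl <;> push_cast <;>
        rcases hr with rfl | rfl <;> constructor <;> linarith
    linarith
  · intro s _ hs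
    have h2 : ¬ (s = a - 1 ∨ s = a ∨ s = a + 1 ∨ s = a + 2) := by
      simpa only [Finset.mem_insert, Finset.mem_singleton] using hs
    show 1 ≤ |(a : ℝ) + r - s| / 2
    have h6 : 2 ≤ |(a : ℝ) + r - s| := by
      rcases lt_or_ge s a with h3 | h3
      · have h4 : s + 2 ≤ a := by omega
        have h5 : (s : ℝ) + 2 ≤ a := by exact_mod_cast h4
        rcases hr with rfl | rfl <;> rw [abs_of_pos (by linarith)] <;> linarith
      · have h4 : a + 3 ≤ s := by omega
        have h5 : (a : ℝ) + 3 ≤ s := by exact_mod_cast h4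
        rcases hr with rfl | rfl <;> rw [abs_of_neg (by linarith)] <;> linarith
    linarith

theorem cen2 : ∀ (m : ℕ) (cls : Fin (m + 1) → Fin 3) (pos : Fin (m + 1) → ℤ)
    (q : Fin 3 → ℝ) (S : ℝ), (∀ e f, cls e = cls f → pos e = pos f → e = f) →
    q 0 + q 1 + q 2 = 0 → (∀ e, q (cls e) - pos e ≠ 0) →
    (∀ k, ∑ e ∈ Finset.univ.filter (fun e => cls e = k), 1 / (q k - pos e) = S) →
    (5 / 162 : ℝ) ^ 3 * 2 ^ (m + 1) ≤ ∏ e, |q (cls e) - pos e| := by
  intro m cls pos q S hinj hq hne hS
  obtain ⟨a, r, hr, hsum, hpos⟩ := exists_c q hq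
  have hw : ∀ e, 0 < ((a (cls e) : ℝ) + r - pos e) / (q (cls e) - pos e) := fun e =>
    hpos (cls e) (pos e) (sub_ne_zero.1 (hne e))
  -- the sum of the logarithms
  have hs : ∑ e, (((a (cls e) : ℝ) + r - pos e) / (q (cls e) - pos e) - 1) = 0 := by
    have h1 : ∀ e, ((a (cls e) : ℝ) + r - pos e) / (q (cls e) - pos e) - 1 =
        ((a (cls e) : ℝ) + r - q (cls e)) * (1 / (q (cls e) - pos e)) := by
      intro e
      have h2 := hne e
      field_simp
      ring
    simp_rw [h1]
    rw [← Finset.sum_fiberwise Finset.univ cls]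
    have h2 : ∀ k : Fin 3, ∑ e ∈ Finset.univ.filter (fun e => cls e = k),
        ((a (cls e) : ℝ) + r - q (cls e)) * (1 / (q (cls e) - pos e)) = ((a k : ℝ) + r - q k) * S := by
      intro k
      rw [← hS k, Finset.mul_sum]
      refine Finset.sum_congr rfl fun e he => ?_
      rw [(Finset.mem_filter.1 he).2]
    simp_rw [h2]
    rw [Fin.sum_univ_three]
    linear_combination S * hsum - S * hq
  have h1 : ∏ e, ((a (cls e) : ℝ) + r - pos e) / (q (cls e) - pos e) ≤ 1 := by
    calc ∏ e, ((a (cls e) : ℝ) + r - pos e) / (q (cls e) - pos e)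
        ≤ ∏ e, Real.exp (((a (cls e) : ℝ) + r - pos e) / (q (cls e) - pos e) - 1) := by
          refine Finset.prod_le_prod (fun e _ => (hw e).le) fun e _ => ?_
          have h2 := Real.add_one_le_exp (((a (cls e) : ℝ) + r - pos e) / (q (cls e) - pos e) - 1)
          linarith
      _ = 1 := by rw [← Real.exp_sum, hs, Real.exp_zero]
  have h2 : ∏ e, |(a (cls e) : ℝ) + r - pos e| ≤ ∏ e, |q (cls e) - pos e| := by
    have h3 : ∏ e, ((a (cls e) : ℝ) + r - pos e) / (q (cls e) - pos e) =
        (∏ e, |(a (cls e) : ℝ) + r - pos e|) / ∏ e, |q (cls e) - pos e| := by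
      rw [← Finset.prod_div_distrib]
      refine Finset.prod_congr rfl fun e _ => ?_
      rw [← abs_div, abs_of_pos (hw e)]
    have h4 : 0 < ∏ e, |q (cls e) - pos e| := Finset.prod_pos fun e _ => abs_pos.2 (hne e)
    rw [h3, div_le_one h4] at h1
    exact h1
  refine le_trans ?_ h2
  have h5 : ∏ e, |(a (cls e) : ℝ) + r - pos e| =
      (∏ e, |(a (cls e) : ℝ) + r - pos e| / 2) * 2 ^ (m + 1) := by
    rw [Finset.prod_div_distrib, Finset.prod_const, Finset.card_univ, Fintype.card_fin,
      div_mul_cancel₀ _ (by positivity)]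
  rw [h5]
  refine mul_le_mul_of_nonneg_right ?_ (by positivity)
  rw [← Finset.prod_fiberwise Finset.univ cls]
  calc (5 / 162 : ℝ) ^ 3 = ∏ _k : Fin 3, (5 / 162 : ℝ) := by
        rw [Finset.prod_const, Finset.card_univ, Fintype.card_fin]
    _ ≤ _ := by
        refine Finset.prod_le_prod (fun _ _ => by norm_num) fun k _ => ?_
        have h3 : ∏ e ∈ Finset.univ.filter (fun e => cls e = k),
              |(a (cls e) : ℝ) + r - pos e| / 2 =
            ∏ p ∈ (Finset.univ.filter (fun e => cls e = k)).image pos,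
              |(a k : ℝ) + r - p| / 2 := by
          rw [Finset.prod_image]
          · refine Finset.prod_congr rfl fun e he => ?_
            rw [(Finset.mem_filter.1 he).2]
          · intro e he f hf h
            have he' := (Finset.mem_filter.1 (Finset.mem_coe.1 he)).2
            have hf' := (Finset.mem_filter.1 (Finset.mem_coe.1 hf)).2
            exact hinj e f (he'.trans hf'.symm) h
        rw [h3]
        exact cls_prod2 (a k) r hr _

theorem t_CEN2 : Pool.Agent.J4H48.LA.S_CEN2 := cen2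

end Pool.Agent.J4H55.LA
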