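import Mathlib

/-!
# Project LA: piece (GRO)
-/

set_option autoImplicit false

namespace Pool.Agent.J4H55.LA

/-- the product of `|s| - 1/2` over a finite set of nonzero integers -/
theorem gro : ∀ S : Finset ℤ, (0 : ℤ) ∉ S →
    (9 / 256 : ℝ) * 2 ^ S.card ≤ ∏ s ∈ S, (|(s : ℝ)| - 1 / 2) := by
  intro S h0
  classical
  let g : ℤ → ℝ := fun s => (|(s : ℝ)| - 1 / 2) / 2
  let T : Finset ℤ := {1, -1, 2, -2}
  have hpos : ∀ s : ℤ, s ≠ 0 → 0 < g s := by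
    intro s hs
    have h1 : (1 : ℤ) ≤ |s| := Int.one_le_abs hs
    have h2 : (1 : ℝ) ≤ |(s : ℝ)| := by exact_mod_cast h1
    show 0 < (|(s : ℝ)| - 1 / 2) / 2
    linarith
  have hT : ∏ s ∈ T, g s = 9 / 256 := by
    have h1 : T = insert (1 : ℤ) (insert (-1 : ℤ) (insert (2 : ℤ) {(-2 : ℤ)})) := rfl
    rw [h1, Finset.prod_insert (by decide), Finset.prod_insert (by decide),
      Finset.prod_insert (by decide), Finset.prod_singleton]
    simp only [g]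
    norm_num
  have hT0 : ∀ s ∈ T, 0 ≤ g s ∧ g s ≤ 1 := by
    intro s hs
    have h1 : s = 1 ∨ s = -1 ∨ s = 2 ∨ s = -2 := by
      simpa only [T, Finset.mem_insert, Finset.mem_singleton] using hs
    rcases h1 with rfl | rfl | rfl | rfl <;> simp only [g] <;> norm_num
  have h2 : ∀ s ∈ S \ T, 1 ≤ g s := by
    intro s hs
    obtain ⟨h3, h4⟩ := Finset.mem_sdiff.1 hs
    have h5 : s ≠ 0 := fun h => h0 (h ▸ h3)
    have h6 : ¬ (s = 1 ∨ s = -1 ∨ s = 2 ∨ s = -2) := by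
      simpa only [T, Finset.mem_insert, Finset.mem_singleton] using h4
    have h7 : (3 : ℤ) ≤ |s| := by
      rcases abs_cases s with ⟨h, _⟩ | ⟨h, _⟩ <;> omega
    have h8 : (3 : ℝ) ≤ |(s : ℝ)| := by exact_mod_cast h7
    show 1 ≤ (|(s : ℝ)| - 1 / 2) / 2
    linarith
  have e1 : ∏ s ∈ S, (|(s : ℝ)| - 1 / 2) = 2 ^ S.card * ∏ s ∈ S, g s := by
    rw [← Finset.prod_const, ← Finset.prod_mul_distrib]
    refine Finset.prod_congr rfl fun s _ => ?_
    simp only [g]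
    ring
  have e2 : (∏ s ∈ S ∩ T, g s) * ∏ s ∈ S \ T, g s = ∏ s ∈ S, g s :=
    Finset.prod_inter_mul_prod_diff S T g
  have e3 : (∏ s ∈ T ∩ S, g s) * ∏ s ∈ T \ S, g s = 9 / 256 := by
    rw [← hT]
    exact Finset.prod_inter_mul_prod_diff T S g
  have h3 : (1 : ℝ) ≤ ∏ s ∈ S \ T, g s := by
    calc (1 : ℝ) = ∏ _s ∈ S \ T, (1 : ℝ) := by rw [Finset.prod_const_one]
      _ ≤ ∏ s ∈ S \ T, g s := Finset.prod_le_prod (fun _ _ => zero_le_one) h2
  have h4 : ∏ s ∈ T \ S, g s ≤ 1 := by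
    calc ∏ s ∈ T \ S, g s ≤ ∏ _s ∈ T \ S, (1 : ℝ) :=
          Finset.prod_le_prod (fun s hs => (hT0 s (Finset.mem_sdiff.1 hs).1).1)
            (fun s hs => (hT0 s (Finset.mem_sdiff.1 hs).1).2)
      _ = 1 := by rw [Finset.prod_const_one]
  have h5 : 0 ≤ ∏ s ∈ T ∩ S, g s :=
    Finset.prod_nonneg fun s hs => (hT0 s (Finset.mem_inter.1 hs).1).1
  have h6 : (9 / 256 : ℝ) ≤ ∏ s ∈ S, g s := by
    rw [← e2, Finset.inter_comm, ← e3]
    exact mul_le_mul_of_nonneg_left (h4.trans h3) h5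
  rw [e1, mul_comm]
  exact mul_le_mul_of_nonneg_left h6 (by positivity)

end Pool.Agent.J4H55.LA
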