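import Pool.Agent.J4H48.LA.Stm
import Pool.Agent.J4H55.LA.Gro

set_option autoImplicit false

namespace Pool.Agent.J4H55.LA

theorem t_GRO : Pool.Agent.J4H48.LA.S_GRO := gro

end Pool.Agent.J4H55.LA
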