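import Pool.Agent.J4H48.LA.Stm3
import Pool.Agent.J4H53.LA.Pos
import Pool.Agent.J4H87.LA.Pos2

set_option autoImplicit false

/-! Project LA, version 3, piece (POS3): positivity with triple points, on top of
`Pool.Agent.J4H53.LA.Pos` (helper53) and `Pool.Agent.J4H87.LA.Pos2` (helper87). -/

namespace Pool.Agent.J4H55.LA

open Finset Pool.Agent.J4H48.LA
open Pool.Agent.J4H53.LA (vv uu ww ww_nonneg ww_cyc ww_del pair_bound)
open Pool.Agent.J4H87.LA (hcyc sum_sq)

section

variable {m : ℕ} {cls : Fin (m + 1) → Fin 3} {pos : Fin (m + 1) → ℤ}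

theorem vv_swap (e f : Fin (m + 1)) : vv cls pos f e = vv cls pos e f := by
  unfold vv
  by_cases h : cls e = cls f
  · rw [if_pos h, if_pos h.symm]
    have h3 : ((pos f - pos e : ℤ) : ℝ) = -((pos e - pos f : ℤ) : ℝ) := by
      push_cast
      ring
    rw [h3, Real.log_neg_eq_log]
  · rw [if_neg h, if_neg (fun h' => h h'.symm)]

theorem uu_swap (e f t : Fin (m + 1)) : uu cls pos f e t = uu cls pos e f t := by
  unfold uu
  by_cases h : cls e ≠ cls f ∧ cls f ≠ cls t ∧ cls t ≠ cls e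
  · rw [if_pos h, if_pos ⟨h.1.symm, h.2.2.symm, h.2.1.symm⟩]
    congr 2
    ring
  · rw [if_neg h, if_neg (fun h' => h ⟨h'.1.symm, h'.2.2.symm, h'.2.1.symm⟩)]

theorem ww_swap (e f t : Fin (m + 1)) : ww cls pos f e t = ww cls pos e f t := by
  unfold ww
  rw [vv_swap e f, vv_swap t e, vv_swap f t, uu_swap e f t]
  ring

theorem fin3' : ∀ a b c d : Fin 3, a ≠ b → b ≠ c → c ≠ a → d ≠ a → d ≠ b → d = c := by
  decide

theorem conc_cyc {e f t : Fin (m + 1)} : Conc cls pos f t e ↔ Conc cls pos e f t := by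
  unfold Conc
  constructor
  · rintro ⟨a, b, c, d⟩
    exact ⟨c, a, b, by omega⟩
  · rintro ⟨a, b, c, d⟩
    exact ⟨b, c, a, by omega⟩

theorem conc_swap {e f t : Fin (m + 1)} : Conc cls pos t f e ↔ Conc cls pos e f t := by
  unfold Conc
  constructor
  · rintro ⟨a, b, c, d⟩
    exact ⟨b.symm, a.symm, c.symm, by omega⟩
  · rintro ⟨a, b, c, d⟩
    exact ⟨b.symm, a.symm, c.symm, by omega⟩

theorem conc_unique (hG : Lines cls pos) {e f t u : Fin (m + 1)} (h1 : Conc cls pos e f t)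
    (h2 : Conc cls pos e f u) : u = t :=
  hG.inj u t (fin3' _ _ _ _ h1.1 h1.2.1 h1.2.2.1 h2.2.2.1 h2.2.1.symm)
    (by have := h1.2.2.2; have := h2.2.2.2; omega)

theorem ww_conc {e f t : Fin (m + 1)} (h : Conc cls pos e f t) (u : Fin (m + 1)) :
    ww cls pos t f u = ww cls pos e f u := by
  rw [ww_del cls pos h.1, ww_del cls pos h.2.1.symm]
  have h0 := h.2.2.2
  unfold del
  by_cases h1 : cls u = cls e
  · have h2 : cls u ≠ cls f := fun h' => h.1 (h1.symm.trans h')
    have h3 : cls u ≠ cls t := fun h' => h.2.2.1 (h'.symm.trans h1)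
    rw [if_pos h1, if_neg h3, if_neg h2]
    have h4 : ((pos t + pos f + pos u : ℤ) : ℝ) = -((pos e - pos u : ℤ) : ℝ) := by
      have : pos t + pos f + pos u = -(pos e - pos u) := by omega
      rw [this]
      push_cast
      ring
    rw [h4, Real.log_neg_eq_log]
  · by_cases h2 : cls u = cls f
    · have h3 : cls u ≠ cls t := fun h' => h.2.1 (h2.symm.trans h')
      rw [if_neg h1, if_pos h2, if_neg h3, if_pos h2]
    · have h3 : cls u = cls t := fin3' _ _ _ _ h.1 h.2.1 h.2.2.1 h1 h2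
      rw [if_pos h3, if_neg h1, if_neg h2]
      have h4 : ((pos t - pos u : ℤ) : ℝ) = -((pos e + pos f + pos u : ℤ) : ℝ) := by
        have : pos t - pos u = -(pos e + pos f + pos u) := by omega
        rw [this]
        push_cast
        ring
      rw [h4, Real.log_neg_eq_log]

/-- the regulator of the class near the common point of `e`, `f`, one half -/
noncomputable def AA (cls : Fin (m + 1) → Fin 3) (pos : Fin (m + 1) → ℤ) (ℓ : ℝ)
    (c : Fin (m + 1) → Fin (m + 1) → ℝ) (e f : Fin (m + 1)) : ℝ :=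
  c e f * ℓ + ∑ t, (c e f + c f t + c t e) * ww cls pos e f t

theorem AA_anti {ℓ : ℝ} {c : Fin (m + 1) → Fin (m + 1) → ℝ} (hc : Circ cls c)
    (e f : Fin (m + 1)) : AA cls pos ℓ c f e = -AA cls pos ℓ c e f := by
  unfold AA
  rw [neg_add, ← sum_neg_distrib, hc.anti e f]
  congr 1
  · ring
  · refine sum_congr rfl fun t _ => ?_
    rw [ww_swap e f t, hc.anti t e, hc.anti f t]
    ring

theorem pair_bound1 {ℓ τ N : ℝ}
    {e f : Fin (m + 1)} {P c : Fin (m + 1) → Fin (m + 1) → ℝ} (hτ : 0 ≤ τ) (hN : 0 ≤ N)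
    (hef : cls e ≠ cls f) (hno : ∀ t, ¬ Conc cls pos e f t) (hP : Loc3 cls pos ℓ τ e f P)
    (hc : Circ cls c)
    (hcN : ∀ s t, |c s t| ≤ N) (h0 : ∑ s, ∑ t, c s t * P s t = 0) :
    |AA cls pos ℓ c e f| ≤ 3 * N * τ * ((m : ℝ) + 1) ^ 2 := by
  have hne : e ≠ f := fun h => hef (by rw [h])
  have hfe : f ∈ univ.erase e := mem_erase.2 ⟨hne.symm, mem_univ f⟩
  refine pair_bound hτ hN hef ⟨hP.anti, ?_, fun s t a b c d =>
    hP.small s t a b (hno s) c d (hno t), fun t a b => hP.main t a b (hno t)⟩ hc hcN h0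
  intro s
  by_cases h1 : s = e
  · rw [if_pos h1, h1, hP.sume, mul_one]
  · by_cases h2 : s = f
    · rw [if_neg h1, if_pos h2, h2]
      have h3 : ∑ s, ∑ t, P s t = 0 := by
        have h4 : ∑ s, ∑ t, P s t = ∑ s, ∑ t, P t s := sum_comm
        have h5 : ∑ s, ∑ t, P t s = -∑ s, ∑ t, P s t := by
          rw [← sum_neg_distrib]
          refine sum_congr rfl fun s _ => ?_
          rw [← sum_neg_distrib]
          exact sum_congr rfl fun t _ => hP.anti s t
        linarith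
      rw [← add_sum_erase univ _ (mem_univ e), ← add_sum_erase _ _ hfe, hP.sume,
        sum_eq_zero (s := (univ.erase e).erase f)] at h3
      · linarith
      · intro x hx
        rw [mem_erase, mem_erase] at hx
        exact hP.sum x hx.2.1 hx.1 (hno x)
    · rw [if_neg h1, if_neg h2, mul_zero]
      exact hP.sum s h1 h2 (hno s)

theorem pair_bound2 (hG : Lines cls pos) {ℓ τ N : ℝ}
    {e f a : Fin (m + 1)} {P c : Fin (m + 1) → Fin (m + 1) → ℝ} (hτ : 0 ≤ τ) (hN : 0 ≤ N)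
    (hef : Conc cls pos e f a) (hP : Loc3 cls pos ℓ τ e f P) (hc : CircT cls pos c)
    (hcN : ∀ s t, |c s t| ≤ N) (h0 : ∑ s, ∑ t, c s t * P s t = 0) :
    |AA cls pos ℓ c e f + AA cls pos ℓ c a f| ≤ 3 * N * τ * ((m : ℝ) + 1) ^ 2 := by
  have hne : e ≠ f := fun h => hef.1 (by rw [h])
  have hfa : f ≠ a := fun h => hef.2.1 (by rw [h])
  have hae : a ≠ e := fun h => hef.2.2.1 (by rw [h])
  obtain ⟨I, hI⟩ : ∃ I : Finset (Fin (m + 1)), I = ((univ.erase e).erase f).erase a := ⟨_, rfl⟩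
  have hfe : f ∈ univ.erase e := mem_erase.2 ⟨hne.symm, mem_univ f⟩
  have hae' : a ∈ (univ.erase e).erase f :=
    mem_erase.2 ⟨hfa.symm, mem_erase.2 ⟨hae, mem_univ a⟩⟩
  have hsplit : ∀ F : Fin (m + 1) → ℝ, ∑ t, F t = F e + F f + F a + ∑ t ∈ I, F t := by
    intro F
    rw [hI, ← add_sum_erase univ F (mem_univ e), ← add_sum_erase _ F hfe,
      ← add_sum_erase _ F hae']
    ring
  have hmem : ∀ t, t ∈ I → t ≠ e ∧ t ≠ f ∧ t ≠ a := by
    intro t ht
    rw [hI, mem_erase, mem_erase, mem_erase] at ht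
    exact ⟨ht.2.2.1, ht.2.1, ht.1⟩
  have hnc : ∀ t, t ∈ I → ¬ Conc cls pos e f t := fun t ht h =>
    (hmem t ht).2.2 (conc_unique hG hef h)
  have hcard : (I.card : ℝ) + 3 = (m : ℝ) + 1 := by
    have h1 : I.card + 3 = m + 1 := by
      have h2 : ((univ.erase e).erase f).card = I.card + 1 := by
        rw [hI]
        exact (card_erase_add_one hae').symm
      have h3 : (univ.erase e).card = ((univ.erase e).erase f).card + 1 :=
        (card_erase_add_one hfe).symm
      have h4 : (univ : Finset (Fin (m + 1))).card = (univ.erase e).card + 1 :=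
        (card_erase_add_one (mem_univ e)).symm
      have h5 : (univ : Finset (Fin (m + 1))).card = m + 1 := by simp
      omega
    exact_mod_cast h1
  have Pz : ∀ s, P s s = 0 := fun s => by
    have := hP.anti s s
    linarith
  have cz : ∀ s, c s s = 0 := fun s => hc.circ.same s s rfl
  have ca := hc.circ.anti
  have tri := hc.tri e f a hef
  have A1 : P e f = ℓ - P e a - ∑ t ∈ I, P e t := by
    have := hP.sume
    rw [hsplit, Pz] at this
    linarith
  have A2 : P a f = ℓ + P e a - ∑ t ∈ I, P a t := by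
    have := hP.sumt a hef
    rw [hsplit, Pz, hP.anti e a] at this
    linarith
  have A3 : ∀ t ∈ I, P f t = -P e t - P a t + ∑ u ∈ I, P t u := by
    intro t ht
    have := hP.sum t (hmem t ht).1 (hmem t ht).2.1 (hnc t ht)
    rw [hsplit, hP.anti e t, hP.anti f t, hP.anti a t] at this
    linarith
  have hR : ∑ s, ∑ t, c s t * P s t = 2 * (c e f * P e f) + 2 * (c e a * P e a) +
      2 * (c a f * P a f) + 2 * ∑ t ∈ I, c e t * P e t +
      2 * ∑ t ∈ I, c f t * P f t + 2 * ∑ t ∈ I, c a t * P a t +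
      ∑ s ∈ I, ∑ t ∈ I, c s t * P s t := by
    have e1 : ∀ s, ∑ t, c s t * P s t = c s e * P s e + c s f * P s f + c s a * P s a +
        ∑ t ∈ I, c s t * P s t := fun s => hsplit _
    simp only [e1]
    rw [hsplit, sum_add_distrib, sum_add_distrib, sum_add_distrib]
    have e2 : ∀ x, ∑ s ∈ I, c s x * P s x = ∑ s ∈ I, c x s * P x s := fun x =>
      sum_congr rfl (fun s _ => by rw [ca x s, hP.anti x s]; ring)
    rw [e2 e, e2 f, e2 a, Pz, Pz, Pz, ca e f, hP.anti e f, ca e a, hP.anti e a, ca a f,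
      hP.anti a f]
    ring
  have hF : ∑ t ∈ I, c f t * P f t = -∑ t ∈ I, c f t * P e t - ∑ t ∈ I, c f t * P a t +
      ∑ t ∈ I, c f t * ∑ u ∈ I, P t u := by
    rw [← sum_neg_distrib, ← sum_sub_distrib, ← sum_add_distrib]
    refine sum_congr rfl (fun t ht => ?_)
    rw [A3 t ht]
    ring
  have hT1 : AA cls pos ℓ c e f = c e f * ℓ +
      ∑ t ∈ I, (c e f + c f t + c t e) * ww cls pos e f t := by
    unfold AA
    rw [hsplit, cz e, cz f, ca e f, tri]
    ring
  have hT2 : AA cls pos ℓ c a f = c a f * ℓ +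
      ∑ t ∈ I, (c a f + c f t + c t a) * ww cls pos e f t := by
    unfold AA
    rw [hsplit, cz a, cz f, ca a f]
    have h1 : c a f + c f e + c e a = 0 := by
      have h2 := ca e f
      have h3 := ca a e
      have h4 := ca a f
      linarith
    rw [h1]
    have h5 : ∑ t ∈ I, (c a f + c f t + c t a) * ww cls pos a f t =
        ∑ t ∈ I, (c a f + c f t + c t a) * ww cls pos e f t :=
      sum_congr rfl fun t _ => by rw [ww_conc hef t]
    rw [h5]
    ring
  have hE1 : ∑ t ∈ I, (c e f + c f t + c t e) * (ww cls pos e f t + P e t) =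
      ∑ t ∈ I, (c e f + c f t + c t e) * ww cls pos e f t + ∑ t ∈ I, c e f * P e t +
        ∑ t ∈ I, c f t * P e t - ∑ t ∈ I, c e t * P e t := by
    rw [← sum_add_distrib, ← sum_add_distrib, ← sum_sub_distrib]
    refine sum_congr rfl (fun t _ => ?_)
    rw [ca e t]
    ring
  have hE2 : ∑ t ∈ I, (c a f + c f t + c t a) * (ww cls pos e f t + P a t) =
      ∑ t ∈ I, (c a f + c f t + c t a) * ww cls pos e f t + ∑ t ∈ I, c a f * P a t +
        ∑ t ∈ I, c f t * P a t - ∑ t ∈ I, c a t * P a t := by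
    rw [← sum_add_distrib, ← sum_add_distrib, ← sum_sub_distrib]
    refine sum_congr rfl (fun t _ => ?_)
    rw [ca a t]
    ring
  have hB1 : c e f * P e f = c e f * ℓ - c e f * P e a - ∑ t ∈ I, c e f * P e t := by
    rw [A1, mul_sub, mul_sub, mul_sum]
  have hB2 : c a f * P a f = c a f * ℓ + c a f * P e a - ∑ t ∈ I, c a f * P a t := by
    rw [A2, mul_sub, mul_add, mul_sum]
  have hpe : -(c e f * P e a) + c e a * P e a + c a f * P e a = 0 := by
    have h2 := ca a f
    have h3 := ca e a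
    have h4 : -c e f + c e a + c a f = 0 := by linarith
    linear_combination (P e a) * h4
  have hmain : AA cls pos ℓ c e f + AA cls pos ℓ c a f =
      ∑ t ∈ I, (c e f + c f t + c t e) * (ww cls pos e f t + P e t) +
      ∑ t ∈ I, (c a f + c f t + c t a) * (ww cls pos e f t + P a t) -
        ∑ t ∈ I, c f t * ∑ u ∈ I, P t u - (∑ s ∈ I, ∑ t ∈ I, c s t * P s t) / 2 := by
    rw [hT1, hT2, hE1, hE2]
    rw [hR, hF, hB1, hB2] at h0
    linarith
  have h3N : ∀ x y z, |c x y + c y z + c z x| ≤ 3 * N := by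
    intro x y z
    refine (abs_add_three _ _ _).trans ?_
    have := hcN x y
    have := hcN y z
    have := hcN z x
    linarith
  have B1 : |∑ t ∈ I, (c e f + c f t + c t e) * (ww cls pos e f t + P e t)| ≤
      I.card * (3 * N * τ) := by
    refine (abs_sum_le_sum_abs _ _).trans ?_
    rw [← nsmul_eq_mul]
    refine sum_le_card_nsmul _ _ _ (fun t ht => ?_)
    rw [abs_mul]
    have h2 : |ww cls pos e f t + P e t| ≤ τ := by
      rw [ww_del cls pos hef.1, add_comm]
      exact hP.main t (hmem t ht).1 (hmem t ht).2.1 (hnc t ht)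
    exact mul_le_mul (h3N e f t) h2 (abs_nonneg _) (by positivity)
  have B1' : |∑ t ∈ I, (c a f + c f t + c t a) * (ww cls pos e f t + P a t)| ≤
      I.card * (3 * N * τ) := by
    refine (abs_sum_le_sum_abs _ _).trans ?_
    rw [← nsmul_eq_mul]
    refine sum_le_card_nsmul _ _ _ (fun t ht => ?_)
    rw [abs_mul]
    have h2 : |ww cls pos e f t + P a t| ≤ τ := by
      rw [ww_del cls pos hef.1, add_comm]
      exact hP.maint a t hef (hmem t ht).1 (hmem t ht).2.1 (hnc t ht)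
    exact mul_le_mul (h3N a f t) h2 (abs_nonneg _) (by positivity)
  have hsm : ∀ s ∈ I, ∀ t ∈ I, |P s t| ≤ τ := fun s hs t ht =>
    hP.small s t (hmem s hs).1 (hmem s hs).2.1 (hnc s hs) (hmem t ht).1 (hmem t ht).2.1 (hnc t ht)
  have B2 : |∑ t ∈ I, c f t * ∑ u ∈ I, P t u| ≤ I.card * (N * (I.card * τ)) := by
    refine (abs_sum_le_sum_abs _ _).trans ?_
    rw [← nsmul_eq_mul]
    refine sum_le_card_nsmul _ _ _ (fun t ht => ?_)
    rw [abs_mul]
    refine mul_le_mul (hcN f t) ?_ (abs_nonneg _) hN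
    refine (abs_sum_le_sum_abs _ _).trans ?_
    rw [← nsmul_eq_mul]
    exact sum_le_card_nsmul _ _ _ (fun u hu => hsm t ht u hu)
  have B3 : |∑ s ∈ I, ∑ t ∈ I, c s t * P s t| ≤ I.card * (I.card * (N * τ)) := by
    refine (abs_sum_le_sum_abs _ _).trans ?_
    rw [← nsmul_eq_mul]
    refine sum_le_card_nsmul _ _ _ (fun s hs => ?_)
    refine (abs_sum_le_sum_abs _ _).trans ?_
    rw [← nsmul_eq_mul]
    refine sum_le_card_nsmul _ _ _ (fun t ht => ?_)
    rw [abs_mul]
    exact mul_le_mul (hcN s t) (hsm s hs t ht) (abs_nonneg _) hN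
  rw [hmain, ← hcard]
  obtain ⟨κ, hκ⟩ : ∃ κ : ℝ, κ = I.card := ⟨_, rfl⟩
  have hκ0 : 0 ≤ κ := by rw [hκ]; exact Nat.cast_nonneg _
  rw [← hκ] at B1 B1' B2 B3 ⊢
  rw [abs_le] at B1 B1' B2 B3 ⊢
  have hNτ : 0 ≤ N * τ := mul_nonneg hN hτ
  have h1 : κ * (3 * N * τ) + κ * (3 * N * τ) + κ * (N * (κ * τ)) + κ * (κ * (N * τ)) / 2 ≤
      3 * N * τ * (κ + 3) ^ 2 := by
    have h2 : 0 ≤ N * τ * κ := mul_nonneg hNτ hκ0
    have h3 : 0 ≤ N * τ * κ ^ 2 := mul_nonneg hNτ (sq_nonneg κ)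
    nlinarith
  constructor <;> linarith [B1.1, B1.2, B1'.1, B1'.2, B2.1, B2.2, B3.1, B3.2]

/-- a light triple -/
def Bad (cls : Fin (m + 1) → Fin 3) (pos : Fin (m + 1) → ℤ) (e f t : Fin (m + 1)) : Prop :=
  ww cls pos e f t < Real.log 2 ∧ e ≠ f ∧ f ≠ t ∧ t ≠ e ∧ ¬ Conc cls pos e f t

theorem bad_cyc (e f t : Fin (m + 1)) : Bad cls pos f t e ↔ Bad cls pos e f t := by
  unfold Bad
  rw [ww_cyc, conc_cyc (e := e) (f := f) (t := t)]
  tauto

theorem del_ne (hG : Lines cls pos) {e f t : Fin (m + 1)} (hef : cls e ≠ cls f) (h1 : f ≠ t)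
    (h2 : t ≠ e) (h3 : ¬ Conc cls pos e f t) : del cls pos e f t ≠ 0 := by
  unfold del
  split_ifs with h4 h5
  · intro h
    exact h2 (hG.inj t e h4 (by omega))
  · intro h
    exact h1 (hG.inj f t h5.symm (by omega))
  · intro h
    exact h3 ⟨hef, fun h6 => h5 h6.symm, h4, h⟩

theorem bad_card (hG : Lines cls pos) {e f : Fin (m + 1)} (hef : cls e ≠ cls f) :
    ∀ s : Finset (Fin (m + 1)), (∀ t ∈ s, Bad cls pos e f t) → s.card ≤ 6 := by
  intro s hs
  have h1 : ∀ t ∈ s, del cls pos e f t = 1 ∨ del cls pos e f t = -1 := by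
    intro t ht
    obtain ⟨h2, h3, h4, h5, h6⟩ := hs t ht
    have h7 := del_ne hG hef h4 h5 h6
    rw [ww_del cls pos hef, ← Real.log_abs] at h2
    have h8 : 0 < |(del cls pos e f t : ℝ)| := abs_pos.2 (by exact_mod_cast h7)
    have h9 : |(del cls pos e f t : ℝ)| < 2 := (Real.log_lt_log_iff h8 (by norm_num)).1 h2
    have h10 : |del cls pos e f t| < 2 := by exact_mod_cast h9
    rw [abs_lt] at h10
    omega
  have h2 : s.card ≤ ((univ : Finset (Fin 3)) ×ˢ ({1, -1} : Finset ℤ)).card := by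
    refine card_le_card_of_injOn (fun t => (cls t, del cls pos e f t)) ?_ ?_
    · intro t ht
      refine mem_coe.2 (mem_product.2 ⟨mem_univ _, ?_⟩)
      show del cls pos e f t ∈ ({1, -1} : Finset ℤ)
      rw [mem_insert, mem_singleton]
      exact h1 t ht
    · intro t _ t' _ h
      have h3 : cls t = cls t' := congrArg Prod.fst h
      have h4 : del cls pos e f t = del cls pos e f t' := congrArg Prod.snd h
      refine hG.inj t t' h3 ?_
      unfold del at h4
      rw [← h3] at h4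
      split_ifs at h4 <;> omega
  refine h2.trans ?_
  rw [card_product]
  decide

theorem hswap (G : Fin (m + 1) → Fin (m + 1) → Fin (m + 1) → ℝ) :
    ∑ e, ∑ f, ∑ t, G t f e = ∑ e, ∑ f, ∑ t, G e f t := by
  have h1 : ∑ e, ∑ f, ∑ t, G t f e = ∑ f, ∑ e, ∑ t, G t f e := sum_comm
  have h2 : ∑ e, ∑ f, ∑ t, G e f t = ∑ f, ∑ e, ∑ t, G e f t := sum_comm
  rw [h1, h2]
  refine sum_congr rfl fun f _ => ?_
  exact sum_comm

open Classical in
theorem lower3 {c : Fin (m + 1) → Fin (m + 1) → ℝ} (hG : Lines cls pos)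
    (hc : CircT cls pos c) :
    3 * (Real.log 2 * (((m : ℝ) - 17) * ∑ e, ∑ f, (c e f) ^ 2)) ≤
      ∑ e, ∑ f, ∑ t, (c e f + c f t + c t e) ^ 2 * ww cls pos e f t := by
  obtain ⟨Q, hQ⟩ : ∃ Q : ℝ, Q = ∑ e, ∑ f, (c e f) ^ 2 := ⟨_, rfl⟩
  have hid := sum_sq hc.circ
  rw [← hQ] at hid ⊢
  obtain ⟨β, hβ⟩ : ∃ β : Fin (m + 1) → Fin (m + 1) → Fin (m + 1) → ℝ,
      β = fun e f t => if Bad cls pos e f t then 1 else 0 := ⟨_, rfl⟩
  have hβc : ∀ e f t, β f t e = β e f t := by
    intro e f t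
    rw [hβ]
    simp only [bad_cyc e f t]
  have hβ6 : ∑ e, ∑ f, ∑ t, β e f t * (c e f) ^ 2 ≤ 6 * Q := by
    rw [hQ, mul_sum]
    refine sum_le_sum fun e _ => ?_
    rw [mul_sum]
    refine sum_le_sum fun f _ => ?_
    by_cases h : cls e = cls f
    · rw [hc.circ.same e f h]
      simp
    · rw [← sum_mul]
      refine mul_le_mul_of_nonneg_right ?_ (sq_nonneg _)
      rw [hβ]
      simp only
      rw [sum_boole]
      have h1 := bad_card hG h (univ.filter fun t => Bad cls pos e f t) fun t ht =>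
        (mem_filter.1 ht).2
      exact_mod_cast h1
  have hg1 := hcyc (fun e f t => β e f t * (c e f) ^ 2)
  have hg2 := hcyc (fun e f t => β e f t * (c f t) ^ 2)
  have hlog : 0 < Real.log 2 := Real.log_pos (by norm_num)
  have hterm : ∀ e f t, Real.log 2 * (c e f + c f t + c t e) ^ 2 -
      3 * Real.log 2 * (β e f t * (c e f) ^ 2 + β e f t * (c f t) ^ 2 + β e f t * (c t e) ^ 2) ≤
      (c e f + c f t + c t e) ^ 2 * ww cls pos e f t := by
    intro e f t
    have hw := ww_nonneg cls pos e f t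
    by_cases hb : Bad cls pos e f t
    · have h1 : β e f t = 1 := by rw [hβ]; simp only [if_pos hb]
      rw [h1]
      have h2 : (c e f + c f t + c t e) ^ 2 ≤ 3 * ((c e f) ^ 2 + (c f t) ^ 2 + (c t e) ^ 2) := by
        nlinarith [sq_nonneg (c e f - c f t), sq_nonneg (c f t - c t e),
          sq_nonneg (c t e - c e f)]
      have h3 : 0 ≤ (c e f + c f t + c t e) ^ 2 * ww cls pos e f t :=
        mul_nonneg (sq_nonneg _) hw
      have h4 := mul_le_mul_of_nonneg_left h2 hlog.le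
      linarith
    · have h1 : β e f t = 0 := by rw [hβ]; simp only [if_neg hb]
      rw [h1]
      have hz : ∀ a, c a a = 0 := fun a => hc.circ.same a a rfl
      have key : c e f + c f t + c t e = 0 → Real.log 2 * (c e f + c f t + c t e) ^ 2 -
          3 * Real.log 2 * (0 * (c e f) ^ 2 + 0 * (c f t) ^ 2 + 0 * (c t e) ^ 2) ≤
          (c e f + c f t + c t e) ^ 2 * ww cls pos e f t := by
        intro h
        rw [h]
        simp
      rcases eq_or_ne e f with h2 | h2
      · exact key (by rw [← h2, hz, hc.circ.anti e t]; ring)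
      rcases eq_or_ne f t with h3 | h3
      · exact key (by rw [← h3, hz, hc.circ.anti e f]; ring)
      rcases eq_or_ne t e with h4 | h4
      · exact key (by rw [h4, hz, hc.circ.anti e f]; ring)
      by_cases h7 : Conc cls pos e f t
      · exact key (hc.tri e f t h7)
      have h5 : Real.log 2 ≤ ww cls pos e f t := by
        by_contra h6
        exact hb ⟨not_le.1 h6, h2, h3, h4, h7⟩
      have h6 := mul_le_mul_of_nonneg_left h5 (sq_nonneg (c e f + c f t + c t e))
      linarith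
  have h1 : ∑ e, ∑ f, ∑ t, (Real.log 2 * (c e f + c f t + c t e) ^ 2 -
      3 * Real.log 2 * (β e f t * (c e f) ^ 2 + β e f t * (c f t) ^ 2 +
        β e f t * (c t e) ^ 2)) ≤
      ∑ e, ∑ f, ∑ t, (c e f + c f t + c t e) ^ 2 * ww cls pos e f t :=
    sum_le_sum fun e _ => sum_le_sum fun f _ => sum_le_sum fun t _ => hterm e f t
  have h2 : ∑ e, ∑ f, ∑ t, (Real.log 2 * (c e f + c f t + c t e) ^ 2 -
      3 * Real.log 2 * (β e f t * (c e f) ^ 2 + β e f t * (c f t) ^ 2 +
        β e f t * (c t e) ^ 2)) =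
      Real.log 2 * (∑ e, ∑ f, ∑ t, (c e f + c f t + c t e) ^ 2) -
      3 * Real.log 2 * ((∑ e, ∑ f, ∑ t, β e f t * (c e f) ^ 2) +
        (∑ e, ∑ f, ∑ t, β e f t * (c f t) ^ 2) + (∑ e, ∑ f, ∑ t, β e f t * (c t e) ^ 2)) := by
    simp only [← sum_add_distrib, mul_sum, ← sum_sub_distrib]
    try refine sum_congr rfl (fun e _ => sum_congr rfl (fun f _ => sum_congr rfl (fun t _ => ?_)))
    try ring
  have h3 : ∑ e, ∑ f, ∑ t, β e f t * (c f t) ^ 2 = ∑ e, ∑ f, ∑ t, β e f t * (c e f) ^ 2 := by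
    rw [← hg1]
    refine sum_congr rfl (fun e _ => sum_congr rfl (fun f _ => sum_congr rfl (fun t _ => ?_)))
    rw [hβc e f t]
  have h4 : ∑ e, ∑ f, ∑ t, β e f t * (c t e) ^ 2 = ∑ e, ∑ f, ∑ t, β e f t * (c f t) ^ 2 := by
    rw [← hg2]
    refine sum_congr rfl (fun e _ => sum_congr rfl (fun f _ => sum_congr rfl (fun t _ => ?_)))
    rw [hβc e f t]
  rw [h2, hid, h4, h3] at h1
  have h5 : 3 * Real.log 2 * ((∑ e, ∑ f, ∑ t, β e f t * (c e f) ^ 2) +
      (∑ e, ∑ f, ∑ t, β e f t * (c e f) ^ 2) + (∑ e, ∑ f, ∑ t, β e f t * (c e f) ^ 2)) ≤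
      3 * Real.log 2 * (3 * (6 * Q)) :=
    mul_le_mul_of_nonneg_left (by linarith) (by positivity)
  linarith

end

open Classical in
theorem t_POS3 : S_POS3 := by
  intro m cls pos hG ℓ τ P hℓ0 hτ hℓ hP c hc h0
  obtain ⟨⟨e0, f0⟩, -, hmax⟩ := exists_max_image (univ : Finset (Fin (m + 1) × Fin (m + 1)))
    (fun x => |c x.1 x.2|) ⟨(0, 0), mem_univ _⟩
  obtain ⟨N, hN⟩ : ∃ N : ℝ, N = |c e0 f0| := ⟨_, rfl⟩
  have hN0 : 0 ≤ N := by rw [hN]; exact abs_nonneg _
  have hcN : ∀ s t, |c s t| ≤ N := fun s t => by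
    rw [hN]
    exact hmax (s, t) (mem_univ _)
  have hA := fun e f => AA_anti (ℓ := ℓ) (pos := pos) hc.circ e f
  obtain ⟨A, hAd⟩ : ∃ A : Fin (m + 1) → Fin (m + 1) → ℝ, A = AA cls pos ℓ c := ⟨_, rfl⟩
  rw [← hAd] at hA
  obtain ⟨κ, hκ⟩ : ∃ κ : Fin (m + 1) → Fin (m + 1) → Fin (m + 1) → ℝ,
      κ = fun e f t => if Conc cls pos e f t then 1 else 0 := ⟨_, rfl⟩
  have hκ1 : ∀ e f t, Conc cls pos e f t → κ e f t = 1 := fun e f t h => by
    rw [hκ]; simp only [if_pos h]
  have hκ0 : ∀ e f t, ¬ Conc cls pos e f t → κ e f t = 0 := fun e f t h => by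
    rw [hκ]; simp only [if_neg h]
  have hκc : ∀ e f t, κ f t e = κ e f t := by
    intro e f t
    rw [hκ]
    simp only [conc_cyc (cls := cls) (pos := pos) (e := e) (f := f) (t := t)]
  have hκs : ∀ e f t, κ t f e = κ e f t := by
    intro e f t
    rw [hκ]
    simp only [conc_swap (cls := cls) (pos := pos) (e := e) (f := f) (t := t)]
  -- the inequality for every pair
  obtain ⟨E, hE⟩ : ∃ E : ℝ, E = 3 * N * τ * ((m : ℝ) + 1) ^ 2 := ⟨_, rfl⟩
  have hE0 : 0 ≤ E := by rw [hE]; positivity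
  have hX : ∀ e f, c e f * A e f + ∑ t, κ e f t * ((2 / 3) * (c e f * A t f) -
      (1 / 3) * (c e f * A e f)) ≤ N * E := by
    intro e f
    by_cases h : cls e = cls f
    · rw [hc.circ.same e f h]
      simp only [zero_mul, mul_zero, sub_zero, sum_const_zero, add_zero]
      positivity
    · by_cases h1 : ∃ a, Conc cls pos e f a
      · obtain ⟨a, ha⟩ := h1
        have h2 : ∑ t, κ e f t * ((2 / 3) * (c e f * A t f) - (1 / 3) * (c e f * A e f)) =
            (2 / 3) * (c e f * A a f) - (1 / 3) * (c e f * A e f) := by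
          rw [sum_eq_single a]
          · rw [hκ1 e f a ha, one_mul]
          · intro t _ ht
            rw [hκ0 e f t (fun h' => ht (conc_unique hG ha h')), zero_mul]
          · intro h'
            exact absurd (mem_univ a) h'
        rw [h2]
        have h3 := pair_bound2 hG hτ hN0 ha (hP e f h) hc hcN (h0 e f h)
        rw [← hE, ← hAd] at h3
        have h4 : c e f * (A e f + A a f) ≤ N * E := by
          refine (le_abs_self _).trans ?_
          rw [abs_mul]
          exact mul_le_mul (hcN e f) h3 (abs_nonneg _) hN0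
        have h5 : 0 ≤ N * E := mul_nonneg hN0 hE0
        linarith
      · have hno : ∀ t, ¬ Conc cls pos e f t := fun t ht => h1 ⟨t, ht⟩
        rw [sum_eq_zero fun t _ => by rw [hκ0 e f t (hno t), zero_mul], add_zero]
        have h3 := pair_bound1 hτ hN0 h hno (hP e f h) hc.circ hcN (h0 e f h)
        rw [← hE, ← hAd] at h3
        refine (le_abs_self _).trans ?_
        rw [abs_mul]
        exact mul_le_mul (hcN e f) h3 (abs_nonneg _) hN0
  have hsum : ∑ e, ∑ f, (c e f * A e f + ∑ t, κ e f t * ((2 / 3) * (c e f * A t f) -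
      (1 / 3) * (c e f * A e f))) ≤ ((m : ℝ) + 1) * (((m : ℝ) + 1) * (N * E)) := by
    have hc1 : ((univ : Finset (Fin (m + 1))).card : ℝ) = (m : ℝ) + 1 := by simp
    rw [← hc1, ← nsmul_eq_mul, ← nsmul_eq_mul]
    refine sum_le_card_nsmul _ _ _ (fun e _ => ?_)
    exact sum_le_card_nsmul _ _ _ (fun f _ => hX e f)
  -- the triple points
  have htri : ∑ e, ∑ f, ∑ t, κ e f t * ((2 / 3) * (c e f * A t f) -
      (1 / 3) * (c e f * A e f)) = 0 := by
    have h1 : ∑ e, ∑ f, ∑ t, κ e f t * ((c e f + c f t + c t e) * A e f) = 0 := by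
      refine sum_eq_zero fun e _ => sum_eq_zero fun f _ => sum_eq_zero fun t _ => ?_
      by_cases h : Conc cls pos e f t
      · rw [hc.tri e f t h, zero_mul, mul_zero]
      · rw [hκ0 e f t h, zero_mul]
    have h2 : ∑ e, ∑ f, ∑ t, κ e f t * (c f t * A e f) =
        ∑ e, ∑ f, ∑ t, -(κ e f t * (c e f * A t f)) := by
      rw [← hswap (fun e f t => κ e f t * (c f t * A e f))]
      refine sum_congr rfl (fun e _ => sum_congr rfl (fun f _ => sum_congr rfl (fun t _ => ?_)))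
      rw [hκs e f t, hc.circ.anti e f]
      ring
    have h3 : ∑ e, ∑ f, ∑ t, κ e f t * (c t e * A e f) =
        ∑ e, ∑ f, ∑ t, -(κ e f t * (c e f * A t f)) := by
      rw [← hcyc (fun e f t => κ e f t * (c t e * A e f))]
      refine sum_congr rfl (fun e _ => sum_congr rfl (fun f _ => sum_congr rfl (fun t _ => ?_)))
      rw [hκc e f t, hA t f]
      ring
    have h4 : ∑ e, ∑ f, ∑ t, κ e f t * ((c e f + c f t + c t e) * A e f) =
        (∑ e, ∑ f, ∑ t, κ e f t * (c e f * A e f)) +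
        (∑ e, ∑ f, ∑ t, κ e f t * (c f t * A e f)) +
        (∑ e, ∑ f, ∑ t, κ e f t * (c t e * A e f)) := by
      simp only [← sum_add_distrib]
      refine sum_congr rfl (fun e _ => sum_congr rfl (fun f _ => sum_congr rfl (fun t _ => ?_)))
      ring
    have h5 : ∑ e, ∑ f, ∑ t, κ e f t * ((2 / 3) * (c e f * A t f) -
        (1 / 3) * (c e f * A e f)) =
        -(1 / 3) * ((∑ e, ∑ f, ∑ t, κ e f t * (c e f * A e f)) +
        (∑ e, ∑ f, ∑ t, -(κ e f t * (c e f * A t f))) +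
        (∑ e, ∑ f, ∑ t, -(κ e f t * (c e f * A t f)))) := by
      simp only [← sum_add_distrib, mul_sum]
      refine sum_congr rfl (fun e _ => sum_congr rfl (fun f _ => sum_congr rfl (fun t _ => ?_)))
      ring
    rw [h5]
    rw [h4, h2, h3] at h1
    rw [h1, mul_zero]
  obtain ⟨Q, hQ⟩ : ∃ Q : ℝ, Q = ∑ e, ∑ f, (c e f) ^ 2 := ⟨_, rfl⟩
  have hQ0 : 0 ≤ Q := by
    rw [hQ]
    exact sum_nonneg fun _ _ => sum_nonneg fun _ _ => sq_nonneg _
  have hexp : ∑ e, ∑ f, (c e f * A e f + ∑ t, κ e f t * ((2 / 3) * (c e f * A t f) -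
      (1 / 3) * (c e f * A e f))) = ℓ * Q +
        ∑ e, ∑ f, ∑ t, c e f * ((c e f + c f t + c t e) * ww cls pos e f t) := by
    have h1 : ∑ e, ∑ f, (c e f * A e f + ∑ t, κ e f t * ((2 / 3) * (c e f * A t f) -
        (1 / 3) * (c e f * A e f))) = (∑ e, ∑ f, c e f * A e f) +
        ∑ e, ∑ f, ∑ t, κ e f t * ((2 / 3) * (c e f * A t f) -
        (1 / 3) * (c e f * A e f)) := by
      simp only [← sum_add_distrib]
    rw [h1, htri, add_zero, hQ, mul_sum, ← sum_add_distrib]
    refine sum_congr rfl (fun e _ => ?_)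
    rw [mul_sum, ← sum_add_distrib]
    refine sum_congr rfl (fun f _ => ?_)
    rw [hAd]
    unfold AA
    rw [mul_add, mul_sum]
    ring
  have he1 := hcyc (fun e f t => c e f * ((c e f + c f t + c t e) * ww cls pos e f t))
  have he2 := hcyc (fun e f t => c f t * ((c f t + c t e + c e f) * ww cls pos f t e))
  have he3 : 0 ≤ ∑ e, ∑ f, ∑ t, (c e f + c f t + c t e) ^ 2 * ww cls pos e f t :=
    sum_nonneg (fun e _ => sum_nonneg (fun f _ => sum_nonneg (fun t _ =>
      mul_nonneg (sq_nonneg _) (ww_nonneg cls pos e f t))))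
  have he4 : ∑ e, ∑ f, ∑ t, (c e f + c f t + c t e) ^ 2 * ww cls pos e f t =
      (∑ e, ∑ f, ∑ t, c e f * ((c e f + c f t + c t e) * ww cls pos e f t)) +
      (∑ e, ∑ f, ∑ t, c f t * ((c f t + c t e + c e f) * ww cls pos f t e)) +
      (∑ e, ∑ f, ∑ t, c t e * ((c t e + c e f + c f t) * ww cls pos t e f)) := by
    simp only [← sum_add_distrib]
    refine sum_congr rfl (fun e _ => sum_congr rfl (fun f _ => sum_congr rfl (fun t _ => ?_)))
    rw [ww_cyc cls pos e f t, ← ww_cyc cls pos t e f]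
    ring
  have hlow := lower3 hG hc
  rw [← hQ] at hlow
  have hlog : 0 < Real.log 2 := Real.log_pos (by norm_num)
  have hpos : Real.log 2 * max 0 ((m : ℝ) - 17) * Q ≤
      ∑ e, ∑ f, ∑ t, c e f * ((c e f + c f t + c t e) * ww cls pos e f t) := by
    rcases le_total ((m : ℝ) - 17) 0 with h | h
    · rw [max_eq_left h, mul_zero, zero_mul]
      linarith
    · rw [max_eq_right h]
      linarith
  have hsq : N ^ 2 ≤ Q := by
    have h1 : (c e0 f0) ^ 2 ≤ ∑ f, (c e0 f) ^ 2 :=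
      single_le_sum (f := fun f => (c e0 f) ^ 2) (fun f _ => sq_nonneg _) (mem_univ f0)
    have h2 : ∑ f, (c e0 f) ^ 2 ≤ ∑ e, ∑ f, (c e f) ^ 2 :=
      single_le_sum (f := fun e => ∑ f, (c e f) ^ 2)
        (fun e _ => sum_nonneg (fun f _ => sq_nonneg _)) (mem_univ e0)
    rw [hN, sq_abs, hQ]
    exact h1.trans h2
  obtain ⟨L, hL⟩ : ∃ L : ℝ, L = ℓ + Real.log 2 * max 0 ((m : ℝ) - 17) := ⟨_, rfl⟩
  rw [← hL] at hℓ
  have hL0 : 0 ≤ L := le_trans (by positivity) hℓ.le
  have hfin : L * N ^ 2 ≤ 3 * τ * ((m : ℝ) + 1) ^ 4 * N ^ 2 := by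
    have h1 : L * N ^ 2 ≤ L * Q := mul_le_mul_of_nonneg_left hsq hL0
    have h2 : ((m : ℝ) + 1) * (((m : ℝ) + 1) * (N * E)) =
        3 * τ * ((m : ℝ) + 1) ^ 4 * N ^ 2 := by rw [hE]; ring
    have h3 : L * Q = ℓ * Q + Real.log 2 * max 0 ((m : ℝ) - 17) * Q := by rw [hL]; ring
    rw [hexp, h2] at hsum
    linarith
  have hN00 : N = 0 := by
    by_contra hne
    have h1 : 0 < N ^ 2 := by positivity
    nlinarith
  funext e f
  have := hcN e f
  rw [hN00] at this
  exact abs_nonpos_iff.1 this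

end Pool.Agent.J4H55.LA
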